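import Pool.Agent.Q66.RX.Defs
import Pool.Agent.H1R3.BT.Dual

/-!
# Statements of the jobs of project RX (MP_c93b6d_al, full answer)

For a locally compact abelian group `X` and a set `I` the groups `c0 I X`, `linf I X` and
`UniformFun I X` are reflexive.  Everything is multiplicative, `Circle` is the circle group,
`rr z` the real part.  For a group `G` of families a character `χ` of `G` is controlled by a
neighbourhood `W` of one if `0 ≤ rr (χ g)` on `W`.
-/

set_option autoImplicit false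

namespace Pool.Agent.Q66.RX

open Topology Filter Set MeasureTheory

/-- CIR. Proof: with `c k = rr (z^(2^k))` we have `1 - c (k+1) = 2(1 - c k)(1 + c k) ≥ 2 (1 - c k)`
when `0 ≤ c k`, so `1 - rr z ≤ 2^(-n)`; and `dist z 1 ^ 2 = 2 (1 - rr z)`. -/
def S_CIR : Prop := ∀ V ∈ 𝓝 (1 : Circle), ∃ n : ℕ, ∀ z : Circle,
  (∀ k ≤ n, 0 ≤ rr (z ^ (2 ^ k))) → z ∈ V

/-- EQ. Proof: take `n` from CIR and `W'` with `w^(2^k) ∈ W` for all `w ∈ W'`, `k ≤ n` (continuity
of the powers at one). -/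
def S_EQ : Prop := ∀ (G : Type) [CommGroup G] [TopologicalSpace G] [IsTopologicalGroup G],
  ∀ W ∈ 𝓝 (1 : G), ∀ V ∈ 𝓝 (1 : Circle), ∃ W' ∈ 𝓝 (1 : G), ∀ f : G →* Circle,
    (∀ g ∈ W, 0 ≤ rr (f g)) → ∀ g ∈ W', f g ∈ V

/-- POL (Alaoglu). Proof: the topology of the dual is induced from `C(G, Circle)`
(`ContinuousMonoidHom.isInducing_toContinuousMap`, `IsInducing.isCompact_iff`); use
`ArzelaAscoli.isCompact_of_equicontinuous`: the set of the functions `f : G → Circle` which are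
homomorphisms with `0 ≤ rr (f g)` on `W` is closed in the compact product, all its members are
continuous and the family is equicontinuous by EQ (at one, hence everywhere by translation;
`f` continuous at one implies `f` continuous). -/
def S_POL : Prop := ∀ (G : Type) [CommGroup G] [TopologicalSpace G] [IsTopologicalGroup G],
  ∀ W ∈ 𝓝 (1 : G), IsCompact {χ : PontryaginDual G | ∀ g ∈ W, 0 ≤ rr (χ g)}

/-- SEQ. Proof: extend `y` to a continuous map `f : OnePoint ℕ → G` with `f ∞ = 1`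
(`OnePoint.continuousMapNat` or similar); `χ ↦ χ ∘ f` is continuous from the dual to
`C(OnePoint ℕ, Circle)` and evaluation is continuous there, so `{(χ, k) | 0 < rr (χ (f k))}` is open
and contains `L × {∞}`; tube lemma (`generalized_tube_lemma`). -/
def S_SEQ : Prop := ∀ (G : Type) [CommGroup G] [TopologicalSpace G] [IsTopologicalGroup G]
  (L : Set (PontryaginDual G)), IsCompact L → ∀ y : ℕ → G, Tendsto y atTop (𝓝 1) →
    ∀ᶠ n in atTop, ∀ χ ∈ L, 0 ≤ rr (χ (y n))

/-- CRIT. Proof: `ev g χ = χ g`. It is injective by R2 and T2, surjective by R3, continuous (at one,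
it is a homomorphism) by R1 and EQ: a neighbourhood of one of the bidual contains
`{Φ | Φ(L) ⊆ V}` for a compact `L`; open at one by R2: `{Φ | ∀ χ ∈ L, 0 < rr (Φ χ)}` is open. Build the
`Homeomorph` from the continuous bijective open map. -/
def S_CRIT : Prop := ∀ (G : Type) [CommGroup G] [TopologicalSpace G] [IsTopologicalGroup G]
  [T2Space G], R1 G → R2 G → R3 G → Reflexive G

/-- LC. Proof: `(ψ, x) ↦ ψ x` is continuous for locally compact `G`; tube lemma for
`Q × {1}`. -/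
def S_LC : Prop := ∀ (G : Type) [CommGroup G] [TopologicalSpace G] [IsTopologicalGroup G]
  [LocallyCompactSpace G] (Q : Set (PontryaginDual G)), IsCompact Q → ∀ V ∈ 𝓝 (1 : Circle),
    ∃ W ∈ 𝓝 (1 : G), ∀ ψ ∈ Q, ∀ x ∈ W, ψ x ∈ V

/-- XR2. Proof: `e '' W` is a neighbourhood of one of the bidual, contains
`{Φ | ∀ ψ ∈ Q, Φ ψ ∈ V}` for a compact `Q` and `V ∈ 𝓝 1`; with `n` from CIR for `V` take
`L = ⋃ k ≤ n, (· ^ (2^k)) '' Q`. -/
def S_XR2 : Prop := ∀ (X : Type) [CommGroup X] [TopologicalSpace X] [IsTopologicalGroup X],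
  Reflexive X → R2 X

/-- XR4. Proof: by POL for the dual (a topological group) and `N` the set
`{Φ | ∀ ψ ∈ N, 0 ≤ rr (Φ ψ)}` of the bidual is compact; take the preimage under `e`. -/
def S_XR4 : Prop := ∀ (X : Type) [CommGroup X] [TopologicalSpace X] [IsTopologicalGroup X],
  Reflexive X → R4 X

/-- FR2. Proof: let `W ∈ 𝓝 1`, `U` from `F.nhd`, `Q` compact from R2 of `X` for `U`, `M ∈ 𝓝 (1 : X)` with
`0 < rr (ψ x)` for `ψ ∈ Q`, `x ∈ M` (LC). `W' = {g | ∀ i, F.c g i ∈ M} ∈ 𝓝 1` (`F.nhd`), and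
`L = {χ | ∀ g ∈ W', 0 ≤ rr (χ g)}` is compact (POL); it contains all `F.pb i ψ`, `ψ ∈ Q`. -/
def S_FR2 : Prop := ∀ (I X G : Type) [CommGroup X] [TopologicalSpace X] [IsTopologicalGroup X]
  [LocallyCompactSpace X] [CommGroup G] [TopologicalSpace G] [IsTopologicalGroup G]
  (_ : Fam I X G), R2 X → R2 G

/-- FEV. Proof: suppose `Φ χ ≠ χ x`. `{χ' | Φ χ' ≠ χ' x}` is open in the dual of `G`, hence contains
`{χ' | ∀ y ∈ C, χ' y / χ y ∈ V}` for some compact `C` and `V ∈ 𝓝 1`. Take `J`, `E` from AP for `C` and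
`W = {g | χ g ∈ V}`, and `χ' = χ ∘ A`, `A y = ∏ j ∈ J, E j (F.c y j)`, i.e.
`χ' = ∏ j ∈ J, F.pb j (χ ∘ E j)`; then `Φ χ' = ∏ j ∈ J, χ (E j (F.c x j)) = χ' x`, contradiction. -/
def S_FEV : Prop := ∀ (I X G : Type) [CommGroup X] [TopologicalSpace X] [IsTopologicalGroup X]
  [CommGroup G] [TopologicalSpace G] [IsTopologicalGroup G] (F : Fam I X G), AP F →
    ∀ (Φ : PontryaginDual (PontryaginDual G)) (x : G),
      (∀ (i : I) (ψ : PontryaginDual X), Φ (F.pb i ψ) = ψ (F.c x i)) →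
        ∀ χ : PontryaginDual G, Φ χ = χ x

/-- AP0. Proof: `E j a` = the element with family `Pi.mulSingle j a` (tends to one; continuous by
`F.nhd`). For `y ∈ C` the product over `J` is the truncation of `y` to `J`. Choose `U` from `F.nhd` for
`W`, and an open `U'` with `U'⁻¹ * U' * U' ⊆ U`, `1 ∈ U'`; `C` is covered by finitely many translates
`y_k {g | ∀ i, F.c g i ∈ U'}`, and `F.c (y_k) i ∈ U'` for `i` outside a finite set `J`. -/
def S_AP0 : Prop := ∀ (I X G : Type) [CommGroup X] [TopologicalSpace X] [IsTopologicalGroup X]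
  [CommGroup G] [TopologicalSpace G] [IsTopologicalGroup G] (F : Fam I X G), IsVan F → AP F

/-- API. Proof: `C` is covered by finitely many translates `y_k {g | ∀ i, F.c g i ∈ U'}`; the members
of the `y_k` lie in a compact set, so there is a map from `I` to a finite type such that
`F.c (y_k) i * (F.c (y_k) j)⁻¹ ∈ U'` for all `k` if `i`, `j` have the same image (finite cover by
translates of `U''`, `U'' U''⁻¹ ⊆ U'`). Choose a representative `r i` of the class of `i`, `J` = the finite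
set of the representatives, `E j a` = the element with family `a` at the `i` with `r i = j`, and one
elsewhere (two values, so in `G`; continuous by `F.nhd`). Then the product over `J` is
`i ↦ F.c y (r i)`. -/
def S_API : Prop := ∀ (I X G : Type) [CommGroup X] [TopologicalSpace X] [IsTopologicalGroup X]
  [CommGroup G] [TopologicalSpace G] [IsTopologicalGroup G] (F : Fam I X G), IsBdd F → AP F

/-- PT0. Proof: let `U ∈ 𝓝 1`, `Q` compact from R2 of `X` for `U`. `Φ` is continuous at one: there are a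
compact `C ⊆ G` and `V ∈ 𝓝 (1 : Circle)` with `0 ≤ rr (Φ χ)` for all `χ` with `χ(C) ⊆ V`. `M ∈ 𝓝 (1 : X)`
with `ψ(M) ⊆ V` for `ψ ∈ Q` (LC). All but finitely many `i` have `F.c y i ∈ M` for all `y ∈ C` (cover
`C` by finitely many translates). For these `i`, `0 ≤ rr (Φ (F.pb i ψ)) = rr (ψ (x i))` for
all `ψ ∈ Q`, so `x i ∈ U`. -/
def S_PT0 : Prop := ∀ (I X G : Type) [CommGroup X] [TopologicalSpace X] [IsTopologicalGroup X]
  [LocallyCompactSpace X] [CommGroup G] [TopologicalSpace G] [IsTopologicalGroup G]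
  (F : Fam I X G), IsVan F → R2 X → ∀ (Φ : PontryaginDual (PontryaginDual G)) (x : I → X),
    (∀ (i : I) (ψ : PontryaginDual X), Φ (F.pb i ψ) = ψ (x i)) → Tendsto x cofinite (𝓝 1)

/-- PTI. Proof: as PT0; the members `F.c y i`, `y ∈ C`, `i : I`, lie in a compact set `D` (cover `C` by
finitely many translates of `{g | ∀ i, F.c g i ∈ K}`, `K` a compact neighbourhood of one), and
`N = {ψ | ψ(D) ⊆ V}` (`V` open) is a neighbourhood of one of the dual; then `0 ≤ rr (ψ (x i))` for all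
`ψ ∈ N` and all `i`: `x i` is in the compact set of R4. -/
def S_PTI : Prop := ∀ (I X G : Type) [CommGroup X] [TopologicalSpace X] [IsTopologicalGroup X]
  [LocallyCompactSpace X] [CommGroup G] [TopologicalSpace G] [IsTopologicalGroup G]
  (F : Fam I X G), IsBdd F → R4 X → ∀ (Φ : PontryaginDual (PontryaginDual G)) (x : I → X),
    (∀ (i : I) (ψ : PontryaginDual X), Φ (F.pb i ψ) = ψ (x i)) →
      ∃ K : Set X, IsCompact K ∧ ∀ i, x i ∈ K

/-- EXT. Extension of homomorphisms to divisible groups: Mathlib has this for additive groups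
(`Module.Baer`, `AddCommGrpCat.injective_of_divisible`, or see how the divisibility of
`AddCircle` is used in `CharacterModule`); transfer with `Additive`. -/
def S_EXT : Prop := ∀ (A D : Type) [CommGroup A] [CommGroup D],
  (∀ (d : D) (n : ℕ), 0 < n → ∃ e : D, e ^ n = d) → ∀ (B : Subgroup A) (f : B →* D),
    ∃ g : A →* D, ∀ b : B, g b = f b

/-- DIV. Proof: take the root `Circle.exp (arg z / n)` of `z`; it is continuous at `z = 1`
with value one. -/
def S_DIV : Prop := ∀ (I : Type) (𝓕 : Filter I) (φ : Gam I 𝓕) (n : ℕ), 0 < n →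
  ∃ φ' : Gam I 𝓕, φ' ^ n = φ

/-- BMG. Proof: `k` = the number of CIR for `V'`; `v ∈ V n` implies `v^(2^j) ∈ V (n - j)`, and
`V (n - j) ⊆ V m` for `m ≤ n - j`, so `0 ≤ rr ((β v)^(2^j))` for `j ≤ k`. -/
def S_BMG : Prop := ∀ (X : Type) [CommGroup X] (V : ℕ → Set X), (∀ n, 1 ∈ V n) →
  (∀ n, ∀ a ∈ V (n + 1), ∀ b ∈ V (n + 1), a * b ∈ V n) → ∀ V' ∈ 𝓝 (1 : Circle),
    ∃ k : ℕ, ∀ (m : ℕ) (β : X →* Circle), (∀ v ∈ V m, 0 ≤ rr (β v)) → ∀ n, m + k ≤ n →
      ∀ v ∈ V n, β v ∈ V'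

/-- EXTY. Proof: let `B` be the subgroup of the `β` in the dual with
`(fun n i => β (x n i)) ∈ Gam I 𝓕`. Every `β` with `0 < rr` on some `V m` is in `B` (BMG; continuity of `β`
at one for the second condition), and `{β | ∀ v ∈ V 0, 0 < rr (β v)}` is a neighbourhood of one of the
dual, as it contains `{β | β(K) ⊆ {0 < rr}}`. By EXT and DIV there is `σ` from the dual to `Gam I 𝓕`
which extends `β ↦ (β (x n i))` on `B`. For every `n`, `i` the homomorphism `ψ ↦ σ ψ n i` is continuous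
(it agrees near one with the continuous `β ↦ β (x n i)`), so by R3 it is the evaluation at some
`y n i`. -/
def S_EXTY : Prop := ∀ (I X : Type) [CommGroup X] [TopologicalSpace X] [IsTopologicalGroup X]
  (𝓕 : Filter I) (V : ℕ → Set X) (K : Set X) (x : ℕ → I → X), R3 X → (∀ n, V n ∈ 𝓝 (1 : X)) →
  (∀ n, ∀ a ∈ V (n + 1), ∀ b ∈ V (n + 1), a * b ∈ V n) → IsCompact K → V 0 ⊆ K →
  (∀ n i, x n i ∈ V n) → (∀ n, Tendsto (x n) 𝓕 (𝓝 1)) →
  ∃ y : ℕ → I → X,
    (∀ (ψ : PontryaginDual X), ∀ V' ∈ 𝓝 (1 : Circle), ∀ᶠ n in atTop, ∀ i, ψ (y n i) ∈ V') ∧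
    (∀ (n : ℕ) (ψ : PontryaginDual X), Tendsto (fun i => ψ (y n i)) 𝓕 (𝓝 1)) ∧
    ∀ (m : ℕ) (β : PontryaginDual X), (∀ v ∈ V m, 0 < rr (β v)) → ∀ n i, β (y n i) = β (x n i)

/-- CONV. Proof: let `U ∈ 𝓝 1`, `Q` compact from R2 for `U`, `B₀ = {β | ∀ v ∈ V 0, 0 < rr (β v)}`, a
neighbourhood of one. `Q` is covered by finitely many `ψ_k B₀`. Let `V'` be a neighbourhood of one
with `V' V' ⊆ {0 ≤ rr}`. For large `n` and all `i`: `ψ_k (y n i) ∈ V'`, and `β (y n i) = β (x n i) ∈ V'` for all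
`β ∈ B₀` (BMG), so `0 ≤ rr (ψ (y n i))` for all `ψ ∈ Q`. -/
def S_CONV : Prop := ∀ (I X : Type) [CommGroup X] [TopologicalSpace X] [IsTopologicalGroup X]
  (V : ℕ → Set X) (K : Set X) (x y : ℕ → I → X), R2 X → (∀ n, V n ∈ 𝓝 (1 : X)) →
  (∀ n, ∀ a ∈ V (n + 1), ∀ b ∈ V (n + 1), a * b ∈ V n) → IsCompact K → V 0 ⊆ K →
  (∀ n i, x n i ∈ V n) →
  (∀ (ψ : PontryaginDual X), ∀ V' ∈ 𝓝 (1 : Circle), ∀ᶠ n in atTop, ∀ i, ψ (y n i) ∈ V') →
  (∀ (β : PontryaginDual X), (∀ v ∈ V 0, 0 < rr (β v)) → ∀ n i, β (y n i) = β (x n i)) →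
  ∀ U ∈ 𝓝 (1 : X), ∀ᶠ n in atTop, ∀ i, y n i ∈ U

/-- CH (dependent choice). Proof: given `V n`, by `F.nhd` and the hypothesis on `L` there are `χ ∈ L` and
`g` with all `F.c g i ∈ V n` and `rr (χ g) < 0`. By continuity of `χ` and `F.nhd` there is `U ∈ 𝓝 (1 : X)`
with `0 ≤ rr (χ z)` if all `F.c z i ∈ U`; `Q` compact from R2 for `U`, `M ∈ 𝓝 1` with `0 < rr (ψ x)` for
`ψ ∈ Q`, `x ∈ M` (LC). Choose `V (n + 1) ⊆ M`, with products in `V n`. Start with `V 0 = K` a compact
neighbourhood of one. -/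
def S_CH : Prop := ∀ (I X G : Type) [CommGroup X] [TopologicalSpace X] [IsTopologicalGroup X]
  [LocallyCompactSpace X] [CommGroup G] [TopologicalSpace G] [IsTopologicalGroup G]
  (F : Fam I X G) (L : Set (PontryaginDual G)), R2 X →
  (∀ W ∈ 𝓝 (1 : G), ∃ χ ∈ L, ∃ g ∈ W, rr (χ g) < 0) →
  ∃ (V : ℕ → Set X) (K : Set X) (χ : ℕ → PontryaginDual G) (g : ℕ → G),
    (∀ n, V n ∈ 𝓝 (1 : X)) ∧ (∀ n, ∀ a ∈ V (n + 1), ∀ b ∈ V (n + 1), a * b ∈ V n) ∧
    IsCompact K ∧ V 0 ⊆ K ∧ (∀ n, χ n ∈ L) ∧ (∀ n i, F.c (g n) i ∈ V n) ∧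
    (∀ n, rr (χ n (g n)) < 0) ∧
    ∀ (n : ℕ) (z : G), (∀ β : PontryaginDual X, (∀ v ∈ V (n + 1), 0 < rr (β v)) →
      ∀ i, 0 ≤ rr (β (F.c z i))) → 0 ≤ rr (χ n z)

/-- R1F. Proof: suppose `L` is compact and not equicontinuous; take `V, K, χ, g` from CH, `y` from EXTY
for `x n i = F.c (g n) i` (second hypothesis), `h n ∈ G` with `F.c (h n) = y n` from the third hypothesis
with `N = {β | ∀ v ∈ V 0, 0 < rr (β v)}`. By CONV and `F.nhd` `h n → 1`, so `0 ≤ rr (χ n (h n))` for large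
`n` (SEQ). For `z = h n * (g n)⁻¹` and all `k` the hypothesis of the last clause of CH holds for `z ^ k`
(`β (F.c z i) = 1`), so `0 ≤ rr (χ n z ^ k)` for all `k`, `χ n z = 1` (CIR and T2), and
`rr (χ n (h n)) = rr (χ n (g n)) < 0`. Contradiction. -/
def S_R1F : Prop := ∀ (I X G : Type) [CommGroup X] [TopologicalSpace X] [IsTopologicalGroup X]
  [LocallyCompactSpace X] [CommGroup G] [TopologicalSpace G] [IsTopologicalGroup G]
  (F : Fam I X G) (𝓕 : Filter I), R2 X → R3 X → (∀ g : G, Tendsto (F.c g) 𝓕 (𝓝 1)) →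
  (∀ (g : G) (y : I → X), ∀ N ∈ 𝓝 (1 : PontryaginDual X),
    (∀ β ∈ N, ∀ i, β (y i) = β (F.c g i)) →
    (∀ ψ : PontryaginDual X, Tendsto (fun i => ψ (y i)) 𝓕 (𝓝 1)) → ∃ g' : G, F.c g' = y) →
  R1 G

/-- TR0. Proof: let `U ∈ 𝓝 1`, `Q` compact from R2 for `U`, `K` a compact neighbourhood of one of `X`,
`N' = {β ∈ N | ∀ v ∈ K, 0 ≤ rr (β v)}`, a neighbourhood of one. `Q` is covered by finitely many
`ψ_k N'`. With `V' V' ⊆ {0 ≤ rr}`: for all but finitely many `i`, `ψ_k (y i) ∈ V'` and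
`β (y i) = β (F.c g i) ∈ V'` for all `β ∈ N'` (EQ, as `F.c g i → 1`), so `0 ≤ rr (ψ (y i))` for
`ψ ∈ Q`, and `y i ∈ U`. -/
def S_TR0 : Prop := ∀ (I X G : Type) [CommGroup X] [TopologicalSpace X] [IsTopologicalGroup X]
  [LocallyCompactSpace X] [CommGroup G] [TopologicalSpace G] [IsTopologicalGroup G]
  (F : Fam I X G), IsVan F → R2 X → ∀ (g : G) (y : I → X), ∀ N ∈ 𝓝 (1 : PontryaginDual X),
    (∀ β ∈ N, ∀ i, β (y i) = β (F.c g i)) →
    (∀ ψ : PontryaginDual X, Tendsto (fun i => ψ (y i)) cofinite (𝓝 1)) → ∃ g' : G, F.c g' = y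

/-- TRI. Proof: the members `F.c g i` lie in a compact `D`; `N' = {β ∈ N | ∀ v ∈ D, 0 ≤ rr (β v)}` is a
neighbourhood of one and all `y i` are in the compact set of R4 for `N'`. -/
def S_TRI : Prop := ∀ (I X G : Type) [CommGroup X] [TopologicalSpace X] [IsTopologicalGroup X]
  [CommGroup G] [TopologicalSpace G] [IsTopologicalGroup G]
  (F : Fam I X G), IsBdd F → R4 X → ∀ (g : G) (y : I → X), ∀ N ∈ 𝓝 (1 : PontryaginDual X),
    (∀ β ∈ N, ∀ i, β (y i) = β (F.c g i)) → ∃ g' : G, F.c g' = y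

/-- OPA. Proof: restriction to `H` is continuous (`PontryaginDual.map`), so the restrictions of the
members of `L` form a compact set; a neighbourhood of one of the open subgroup is one of `G`. -/
def S_OPA : Prop := ∀ (G : Type) [CommGroup G] [TopologicalSpace G] [IsTopologicalGroup G]
  (H : Subgroup G), IsOpen (H : Set G) → R1 H → R1 G

/-- OPE. Proof: let `D` be the group of all `φ : PontryaginDual H → Circle` with `φ → 1` at `1`
(`Tendsto φ (𝓝 1) (𝓝 1)`), a divisible group (roots as in DIV); `h ↦ (η ↦ η h)` is a homomorphism from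
`H` to `D`, extend it to `τ : G →* D` by EXT and put `ext η g = τ g η`; for fixed `η` this is a
homomorphism in `g` which agrees with `η` on the open `H`, so it is continuous. `ext η → 1` in the
compact open topology for `η → 1`: a compact `C` is covered by finitely many cosets `g_k H`,
`C ∩ g_k H = g_k C_k` with `C_k ⊆ H` compact, and
`ext η (g_k c) = ext η g_k * η c`. -/
def S_OPE : Prop := ∀ (G : Type) [CommGroup G] [TopologicalSpace G] [IsTopologicalGroup G]
  (H : Subgroup G), IsOpen (H : Set G) →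
    ∃ ext : PontryaginDual H → PontryaginDual G, (∀ (η : PontryaginDual H) (h : H),
      ext η (h : G) = η h) ∧ Tendsto ext (𝓝 1) (𝓝 1)

/-- OPD. Proof: `A = {χ | ∀ h ∈ H, χ h = 1}` is a subgroup of the dual, compact by POL (for `W = H`:
`0 ≤ rr` on the subgroup `H` implies trivial on `H`, by CIR). The evaluations at the `g : G` are
continuous and injective on `A` as a map to `G → Circle`, so the topology of `A` is induced by them
(compact to Hausdorff: closed embedding). By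
`Pool.Agent.Helper69.Dual.exists_prod_of_inducing` (import Pool.Agent.Helper69.Dual) the
restriction of `Φ` to `A` is a finite product of integral powers of evaluations, i.e. the
evaluation at the product `g`. -/
def S_OPD : Prop := ∀ (G : Type) [CommGroup G] [TopologicalSpace G] [IsTopologicalGroup G]
  (H : Subgroup G), IsOpen (H : Set G) → ∀ Φ : PontryaginDual (PontryaginDual G),
    ∃ g : G, ∀ χ : PontryaginDual G, (∀ h ∈ H, χ h = 1) → Φ χ = χ g

/-- OPB. Proof: let `g` be from OPD; replace `Φ` by `Φ' χ = Φ χ / χ g`, trivial on the annihilator of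
`H`. `Φ'' η = Φ' (ext η)` (OPE) is a homomorphism (`ext (η η') / (ext η ext η')` is trivial on `H`) and
continuous at one, so by R3 of `H` it is the evaluation at some `h`; `Φ' χ = Φ'' (χ restricted to H)`
as `χ / ext (χ restricted)` is trivial on `H`. So `Φ χ = χ (g h)`. -/
def S_OPB : Prop := ∀ (G : Type) [CommGroup G] [TopologicalSpace G] [IsTopologicalGroup G]
  (H : Subgroup G), IsOpen (H : Set G) → R3 H → R3 G

/-- FAM. `UniformFun I X` as a group of families, and its subgroups. Proof: a basis of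
neighbourhoods of one is given by the sets of families with all members in `U`, `U ∈ 𝓝 1`
(`UniformFun.hasBasis_nhds_one` or similar; subspace topology). -/
def S_FAM : Prop := ∀ (I X : Type) [CommGroup X] [UniformSpace X] [IsUniformGroup X],
  (∃ F : Fam I X (UniformFun I X), ∀ g i, F.c g i = UniformFun.toFun g i) ∧
  ∀ S : Subgroup (UniformFun I X), ∃ F : Fam I X S,
    ∀ (g : S) i, F.c g i = UniformFun.toFun (g : UniformFun I X) i

/-- BDD. Proof: `X` is complete (locally compact uniform group), so a closed totally bounded set is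
compact. `linf I X` is open: for a compact neighbourhood `K` of one it contains the neighbourhood
of one of the families with all members in `K`. -/
def S_BDD : Prop := ∀ (I X : Type) [CommGroup X] [UniformSpace X] [IsUniformGroup X]
  [LocallyCompactSpace X], (∀ x : I → X, TotallyBounded (range x) ↔
    ∃ K : Set X, IsCompact K ∧ ∀ i, x i ∈ K) ∧ IsOpen (linf I X : Set (UniformFun I X))

/-- PKA. For a system `S` of the library `Pool.Agent.H1R3.BT` (files Sys, Alg, Dual). Proof: by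
`S.approx_id` there is `q` with `‖π(q) v - v‖ ≤ ε'`; the set `{m | δ ≤ ‖m (S.pi hq)‖}` of characters
of `S.A` is compact and consists of good `m` (`S.char_pi_bad`), `S.κ` is continuous there
(`S.κ_contOn`), so its image in the dual is compact; take `k` continuous with compact support,
`0 ≤ k ≤ 1`, `k = 1` on that image. Then `‖m (T * π(q) - π(q))‖ ≤ δ` for all characters `m` (`S.char_T`,
`S.sharp_good`, `S.sharp_bad`), so `‖T π(q) v - π(q) v‖ ≤ δ ‖v‖` (`S.bnd` with `b = δ • 1`, or the norm), and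
`‖T v - v‖ ≤ ‖T (v - π(q) v)‖ + ‖T π(q) v - π(q) v‖ + ‖π(q) v - v‖`, `‖T‖ ≤ 1` in the same way. -/
def S_PKA : Prop := ∀ (G : Type) [CommGroup G] [TopologicalSpace G] [IsTopologicalGroup G]
  [LocallyCompactSpace G] [T2Space G] [MeasurableSpace G] [BorelSpace G]
  (μ : Measure G) [μ.IsHaarMeasure]
  (H : Type) [NormedAddCommGroup H] [InnerProductSpace ℂ H] [CompleteSpace H]
  (S : Pool.Agent.H1R3.BT.Sys G μ H) (v : H) (ε : ℝ), 0 < ε →
  ∃ (k : PontryaginDual G → ℝ) (hk : Pool.Agent.H1R3.BT.CC k), (∀ χ, 0 ≤ k χ) ∧ (∀ χ, k χ ≤ 1) ∧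
    ‖((S.T hk.toC : S.A) : H →L[ℂ] H) v - v‖ ≤ ε

/-- PK1 (Gelfand and Raikov, quantitative). Proof with the library `Pool.Agent.H1R3.BT` (import
Pool.Agent.H1R3.BT.Main2 and Pool.Agent.H1R3.BT.L2; `S = sys μ`, `μ` a Haar measure, Borel structures
`borel _`): choose a symmetric neighbourhood `A` of one with `A A ⊆ W` and `p ≠ 0` continuous, real
with compact support in `A` (`exists_unit`), `v = S.ι p`; then `⟪v, S.U x v⟫ = 0` for `x ∉ W`. By PKA there
is `k` with compact support `Q` and `‖T v - v‖ ≤ ε ‖v‖`, `T = S.T k`. If `1/2 ≤ rr (χ x)` for all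
`χ ∈ Q`, then `Re m (u x T) ≥ (1/2) Re m T` for all characters `m` (`S.κ_apply`, `S.char_T`), so
`Re ⟪v, U x T v⟫ ≥ (1/2) Re ⟪v, T v⟫` (`S.pos`), so `⟪v, U x v⟫ ≠ 0` for `ε = 1/8` and `x ∈ W` (maybe with
`x⁻¹`). Finally replace `Q` by `Q ∪ Q^2` (`0 ≤ rr z`, `0 ≤ rr (z^2)` imply `1/2 ≤ rr z`). -/
def S_PK1 : Prop := ∀ (X : Type) [CommGroup X] [TopologicalSpace X] [IsTopologicalGroup X]
  [LocallyCompactSpace X] [T2Space X], R2 X

/-- PKH. Proof: `Sys.exists_h` for `S = sys μ` of Pool.Agent.H1R3.BT.L2 (`ν` a regular Haar measure of the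
dual, `Measure.haar`), `w x = ‖h x‖ ^ 2`; `⟪h, S.M χ h⟫ = ∫ w x * χ x ∂μ` (`modl_coe`,
`L2.inner_def`), `∫ w = ‖h‖^2 > 0`. -/
def S_PKH : Prop := ∀ (X : Type) [CommGroup X] [TopologicalSpace X] [IsTopologicalGroup X]
  [LocallyCompactSpace X] [T2Space X] [MeasurableSpace X] [BorelSpace X] (μ : Measure X)
  [μ.IsHaarMeasure] [μ.Regular], ∀ N ∈ 𝓝 (1 : PontryaginDual X), ∃ w : X → ℝ,
    Integrable w μ ∧ (∀ x, 0 ≤ w x) ∧ 0 < ∫ x, w x ∂μ ∧
      ∀ χ ∉ N, ∫ x, (w x : ℂ) * ((χ x : Circle) : ℂ) ∂μ = 0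

/-- PKF. Proof: approximate `w` by `G ∈ C_c(X)` and `f` by `F ∈ C_c(dual)` in `L¹`
(`Integrable.exists_hasCompactSupport_integral_sub_le`; the measures are regular). The double
integral of `F(γ) G(y) γ(x y)` is swapped by
`integral_integral_swap_of_hasCompactSupport` (joint continuity of `(γ, y) ↦ γ y` for locally
compact `X`: `Pool.Agent.H1R3.BT.cont_eval`), and
`|∫ F(γ) γ(xy) dν| ≤ ‖F - f‖₁`. All other errors are bounded by `‖f - F‖₁ ‖w‖₁ + ‖F‖₁ ‖w - G‖₁`. Same for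
the conjugate transform. -/
def S_PKF : Prop := ∀ (X : Type) [CommGroup X] [TopologicalSpace X] [IsTopologicalGroup X]
  [LocallyCompactSpace X] [T2Space X] [MeasurableSpace X] [BorelSpace X] (μ : Measure X)
  [μ.IsHaarMeasure] [μ.Regular] [MeasurableSpace (PontryaginDual X)]
  [BorelSpace (PontryaginDual X)] (ν : Measure (PontryaginDual X)) [ν.IsHaarMeasure]
  [ν.Regular] (f : PontryaginDual X → ℂ) (w : X → ℂ), Integrable f ν → Integrable w μ →
  (∀ x : X, ∫ γ, f γ * ((γ x : Circle) : ℂ) ∂ν = 0) →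
  ∀ x : X, (∫ γ, f γ * (∫ y, w y * ((γ y : Circle) : ℂ) ∂μ) * ((γ x : Circle) : ℂ) ∂ν = 0) ∧
    ∫ γ, f γ * (starRingEnd ℂ) (∫ y, w y * ((γ y : Circle) : ℂ) ∂μ) *
      ((γ x : Circle) : ℂ) ∂ν = 0

/-- PKC. Proof: `ev : X → bidual` is continuous (LC/EQ) and, by R2 and T2, inducing and injective
(see CRIT); the image is a locally compact subgroup of a Hausdorff group, hence closed (or:
`X` is complete, so its image under a uniform embedding is complete, hence closed). -/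
def S_PKC : Prop := ∀ (X : Type) [CommGroup X] [TopologicalSpace X] [IsTopologicalGroup X]
  [LocallyCompactSpace X] [T2Space X], R2 X →
    IsClosed {Φ : PontryaginDual (PontryaginDual X) | ∃ x : X, ∀ χ, Φ χ = χ x}

/-- PKX. Proof: `V = {Ξ | ¬ ∃ x, ∀ χ, Ξ χ * (Ψ χ)⁻¹ = χ x}` is a neighbourhood of one of the bidual (the set
of PKC is closed and a subgroup), and `Ψ * ev x` is not in `V`. PKH for the group `PontryaginDual X`
(locally compact, T2) and `ν` gives `u`; `u χ * Ψ χ * χ x` integrates to zero as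
`Ψ * ev x ∉ V` (`ev x` is in the bidual: continuity of `χ ↦ χ x`). -/
def S_PKX : Prop := ∀ (X : Type) [CommGroup X] [TopologicalSpace X] [IsTopologicalGroup X]
  [LocallyCompactSpace X] [T2Space X] [MeasurableSpace (PontryaginDual X)]
  [BorelSpace (PontryaginDual X)] (ν : Measure (PontryaginDual X)) [ν.IsHaarMeasure] [ν.Regular]
  (Ψ : PontryaginDual (PontryaginDual X)), (¬ ∃ x : X, ∀ χ : PontryaginDual X, Ψ χ = χ x) →
  ∃ u : PontryaginDual X → ℝ, Integrable u ν ∧ (∀ γ, 0 ≤ u γ) ∧ 0 < ∫ γ, u γ ∂ν ∧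
    ∀ x : X, ∫ γ, (u γ : ℂ) * ((Ψ γ : Circle) : ℂ) * ((γ x : Circle) : ℂ) ∂ν = 0

/-- PKY. Proof: by PKH for `X` (`μ = Measure.haar` for the Borel structure `borel X`, regular) and
`N = {χ | 0 < rr (Ψ χ)}` there is `w ≥ 0` on `X`; put `q χ = ∫ w y * χ y ∂μ`; `q = 0` off `N`, `q` is
continuous at one or at least `q 1 > 0` and `q` continuous (dominated convergence does not apply to
nets; use `|q χ - q_G χ| ≤ ‖w - G‖₁` for `G ∈ C_c` and `Pool.Agent.H1R3.BT.ft_cont`). For `γ₀` apply PKF to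
`f = u Ψ` and `y ↦ w y * (γ₀⁻¹ y)`, then the conjugate version to the result:
`∫ f(γ) |q(γ γ₀⁻¹)|² dν = 0`; multiply by the conjugate of `Ψ γ₀`:
`∫ u(γ) Ψ(γ γ₀⁻¹) |q(γ γ₀⁻¹)|² dν = 0`, the real part of the integrand is `≥ 0`, so it vanishes almost
everywhere, and `u γ = 0` for almost all `γ` with `γ γ₀⁻¹ ∈ O`, `O = {χ | q χ ≠ 0}` (`⊆ N`). -/
def S_PKY : Prop := ∀ (X : Type) [CommGroup X] [TopologicalSpace X] [IsTopologicalGroup X]
  [LocallyCompactSpace X] [T2Space X] [MeasurableSpace (PontryaginDual X)]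
  [BorelSpace (PontryaginDual X)] (ν : Measure (PontryaginDual X)) [ν.IsHaarMeasure] [ν.Regular]
  (Ψ : PontryaginDual (PontryaginDual X)) (u : PontryaginDual X → ℝ), Integrable u ν →
  (∀ γ, 0 ≤ u γ) →
  (∀ x : X, ∫ γ, (u γ : ℂ) * ((Ψ γ : Circle) : ℂ) * ((γ x : Circle) : ℂ) ∂ν = 0) →
  ∃ O ∈ 𝓝 (1 : PontryaginDual X), ∀ γ₀ : PontryaginDual X, ∀ᵐ γ ∂ν, γ * γ₀⁻¹ ∈ O → u γ = 0

/-- PKZ. Proof: for compact `K`, finitely many `{γ | γ γ₀⁻¹ ∈ O}` cover `K`, so `u = 0` almost everywhere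
on `K`. The set `{γ | 1/n < u γ}` (up to null sets measurable) has finite measure, and by inner
regularity it has measure zero; so `u = 0` almost everywhere. -/
def S_PKZ : Prop := ∀ (Γ : Type) [CommGroup Γ] [TopologicalSpace Γ] [IsTopologicalGroup Γ]
  [LocallyCompactSpace Γ] [T2Space Γ] [MeasurableSpace Γ] [BorelSpace Γ] (ν : Measure Γ)
  [ν.IsHaarMeasure] [ν.Regular] (u : Γ → ℝ), Integrable u ν → (∀ γ, 0 ≤ u γ) →
  ∀ O ∈ 𝓝 (1 : Γ), (∀ γ₀ : Γ, ∀ᵐ γ ∂ν, γ * γ₀⁻¹ ∈ O → u γ = 0) → ∫ γ, u γ ∂ν = 0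

end Pool.Agent.Q66.RX
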