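import Pool.Agent.Q66.RX.Stm

/-!
Assembly of project RX.
-/

set_option autoImplicit false

namespace Pool.Agent.Q66.RX

open Topology Filter Set MeasureTheory

theorem rr_nhds : {z : Circle | 0 ≤ rr z} ∈ 𝓝 (1 : Circle) := by
  have hc : Continuous rr := Complex.continuous_re.comp continuous_subtype_val
  have h1 : {z : Circle | 0 < rr z} ∈ 𝓝 (1 : Circle) :=
    (isOpen_lt continuous_const hc).mem_nhds (by simp [rr])
  exact mem_of_superset h1 fun z hz => (show 0 < rr z from hz).le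

theorem r1_of_lc (hLC : S_LC) (X : Type) [CommGroup X] [TopologicalSpace X]
    [IsTopologicalGroup X] [LocallyCompactSpace X] : R1 X := by
  intro L hL
  obtain ⟨W, hW, h⟩ := hLC X L hL _ rr_nhds
  exact ⟨W, hW, fun χ hχ g hg => h χ hχ g hg⟩

theorem pk3 (hX : S_PKX) (hY : S_PKY) (hZ : S_PKZ) (X : Type) [CommGroup X] [TopologicalSpace X]
    [IsTopologicalGroup X] [LocallyCompactSpace X] [T2Space X] : R3 X := by
  intro Ψ
  by_contra hcon
  let _ : MeasurableSpace (PontryaginDual X) := borel _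
  have _ : BorelSpace (PontryaginDual X) := ⟨rfl⟩
  let ν : Measure (PontryaginDual X) := Measure.haar
  obtain ⟨u, hu1, hu2, hu3, hu4⟩ := hX X ν Ψ hcon
  obtain ⟨O, hO, h⟩ := hY X ν Ψ u hu1 hu2 hu4
  have := hZ (PontryaginDual X) ν u hu1 hu2 O hO h
  linarith

/-- the coordinates of a character of the dual of a group of families -/
theorem coord (I X G : Type) [CommGroup X] [TopologicalSpace X] [IsTopologicalGroup X]
    [CommGroup G] [TopologicalSpace G] [IsTopologicalGroup G] (F : Fam I X G) (h3 : R3 X)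
    (Φ : PontryaginDual (PontryaginDual G)) :
    ∃ x : I → X, ∀ (i : I) (ψ : PontryaginDual X), Φ (F.pb i ψ) = ψ (x i) := by
  have : ∀ i : I, ∃ a : X, ∀ ψ : PontryaginDual X, Φ (F.pb i ψ) = ψ a := by
    intro i
    exact h3 (PontryaginDual.map (F.pb i) Φ)
  choose x hx using this
  exact ⟨x, hx⟩

theorem main (hCRIT : S_CRIT) (hXR4 : S_XR4) (hFR2 : S_FR2) (hFEV : S_FEV)
    (hAP0 : S_AP0) (hAPI : S_API) (hPT0 : S_PT0) (hPTI : S_PTI) (hR1F : S_R1F) (hTR0 : S_TR0)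
    (hTRI : S_TRI) (hOPA : S_OPA) (hOPB : S_OPB) (hFAM : S_FAM) (hBDD : S_BDD) (I X : Type)
    [CommGroup X] [UniformSpace X] [IsUniformGroup X] [LocallyCompactSpace X] [T2Space X]
    (h1 : R1 X) (h2 : R2 X) (h3 : R3 X) :
    Reflexive (c0 I X) ∧ Reflexive (linf I X) ∧ Reflexive (UniformFun I X) := by
  have h4 : R4 X := hXR4 X (hCRIT X h1 h2 h3)
  obtain ⟨⟨FU, hFU⟩, hS⟩ := hFAM I X
  obtain ⟨F0, hF0⟩ := hS (c0 I X)
  obtain ⟨Fi, hFi⟩ := hS (linf I X)
  obtain ⟨hb, ho⟩ := hBDD I X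
  have hv0 : IsVan F0 := by
    intro x
    constructor
    · rintro ⟨g, rfl⟩
      have := g.2
      have h : (F0.c g) = fun i => UniformFun.toFun (g : UniformFun I X) i := funext (hF0 g)
      rw [h]
      exact this
    · intro hx
      refine ⟨⟨UniformFun.ofFun x, hx⟩, funext fun i => ?_⟩
      rw [hF0]
      rfl
  have hbi : IsBdd Fi := by
    intro x
    constructor
    · rintro ⟨g, rfl⟩
      have h : (Fi.c g) = fun i => UniformFun.toFun (g : UniformFun I X) i := funext (hFi g)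
      rw [← hb, h]
      exact g.2
    · intro hx
      refine ⟨⟨UniformFun.ofFun x, (hb x).2 hx⟩, funext fun i => ?_⟩
      rw [hFi]
      rfl
  have hi1 : R1 (linf I X) :=
    hR1F I X _ Fi ⊥ h2 h3 (fun g => tendsto_bot) (fun g y N hN h _ => hTRI I X _ Fi hbi h4 g y N hN h)
  have hi3 : R3 (linf I X) := by
    intro Φ
    obtain ⟨x, hx⟩ := coord I X _ Fi h3 Φ
    obtain ⟨g, rfl⟩ := (hbi x).2 (hPTI I X _ Fi hbi h4 Φ x hx)
    exact ⟨g, hFEV I X _ Fi (hAPI I X _ Fi hbi) Φ g hx⟩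
  refine ⟨?_, ?_, ?_⟩
  · apply hCRIT
    · exact hR1F I X _ F0 cofinite h2 h3 (fun g => (hv0 _).1 ⟨g, rfl⟩)
        (fun g y N hN h h' => hTR0 I X _ F0 hv0 h2 g y N hN h h')
    · exact hFR2 I X _ F0 h2
    · intro Φ
      obtain ⟨x, hx⟩ := coord I X _ F0 h3 Φ
      obtain ⟨g, rfl⟩ := (hv0 x).2 (hPT0 I X _ F0 hv0 h2 Φ x hx)
      exact ⟨g, hFEV I X _ F0 (hAP0 I X _ F0 hv0) Φ g hx⟩
  · exact hCRIT _ hi1 (hFR2 I X _ Fi h2) hi3
  · exact hCRIT _ (hOPA _ (linf I X) ho hi1) (hFR2 I X _ FU h2) (hOPB _ (linf I X) ho hi3)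

end Pool.Agent.Q66.RX
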