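import Pool.Agent.Q164.RX.PKC
import Pool.Agent.Q103.RX.PT0

/-!
The criterion for reflexivity.
-/

set_option autoImplicit false

namespace Pool.Agent.Q66.RX

open Topology Filter Set Pool.Agent.Q164.RX

theorem t_CRIT (hE : S_EQ) : S_CRIT := by
  intro G _ _ _ _ h1 h2 h3
  let E : G →* PontryaginDual (PontryaginDual G) :=
    { toFun := ev
      map_one' := PontryaginDual.ext fun χ => map_one χ
      map_mul' := ev_mul }
  have hinj : Function.Injective E := by
    rw [injective_iff_map_eq_one]
    intro g hg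
    by_contra hne
    have hW : ({g}ᶜ : Set G) ∈ 𝓝 (1 : G) := isOpen_compl_singleton.mem_nhds (fun h => hne h.symm)
    obtain ⟨L, -, h⟩ := h2 _ hW
    refine h g (fun χ _ => ?_) rfl
    have h4 : χ g = 1 := congrArg (fun Φ : PontryaginDual (PontryaginDual G) => Φ χ) hg
    rw [h4]
    simp [rr]
  have hsurj : Function.Surjective E := by
    intro Φ
    obtain ⟨g, hg⟩ := h3 Φ
    exact ⟨g, PontryaginDual.ext fun χ => (hg χ).symm⟩
  have hcont : Continuous E := by
    apply continuous_of_continuousAt_one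
    intro N hN
    rw [map_one] at hN
    obtain ⟨L, hL, V, hV, h⟩ := Pool.Agent.Q103.RX.pt0_nhds hN
    obtain ⟨W, hW, hW'⟩ := h1 L hL
    obtain ⟨W1, hW1, h4⟩ := hE G W hW V hV
    refine mem_map.2 (mem_of_superset hW1 fun g hg => h _ fun χ hχ => ?_)
    exact h4 χ.toMonoidHom (fun g hg => hW' χ hχ g hg) g hg
  let M : G ≃* PontryaginDual (PontryaginDual G) := MulEquiv.ofBijective E ⟨hinj, hsurj⟩
  have hinv : Continuous M.symm := by
    apply continuous_of_continuousAt_one M.symm.toMonoidHom
    intro W hW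
    have hW2 : W ∈ 𝓝 (1 : G) := by
      have : M.symm.toMonoidHom 1 = 1 := map_one _
      rwa [this] at hW
    obtain ⟨L, hL, h⟩ := h2 W hW2
    have hO := open_pos hL
    have hm : {Φ : PontryaginDual (PontryaginDual G) | ∀ χ ∈ L, 0 < rr (Φ χ)} ∈
        𝓝 (1 : PontryaginDual (PontryaginDual G)) := by
      apply hO.mem_nhds
      intro χ _
      show 0 < rr 1
      simp [rr]
    refine mem_map.2 (mem_of_superset hm fun Φ hΦ => ?_)
    obtain ⟨g, rfl⟩ := hsurj Φ
    have h5 : M.symm (E g) = g := M.symm_apply_apply g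
    show M.symm (E g) ∈ W
    rw [h5]
    exact h g fun χ hχ => le_of_lt (hΦ χ hχ)
  exact ⟨{ toEquiv := M.toEquiv, continuous_toFun := hcont, continuous_invFun := hinv },
    fun g χ => rfl⟩

end Pool.Agent.Q66.RX
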