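import Mathlib

/-!
Definitions of project RX: reflexivity of the uniform groups of families in a locally compact
abelian group.  All groups are written multiplicatively; the circle group is `Circle`.
-/

set_option autoImplicit false

namespace Pool.Agent.Q66.RX

open Topology Filter Set

/-- `G` is Pontryagin reflexive: the evaluation map to the bidual (with the compact open topologies)
is a homeomorphism (it is a homomorphism). -/
def Reflexive (G : Type) [CommGroup G] [TopologicalSpace G] [IsTopologicalGroup G] : Prop :=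
  ∃ e : G ≃ₜ PontryaginDual (PontryaginDual G), ∀ (g : G) (χ : PontryaginDual G), e g χ = χ g

/-- the real part of an element of the circle group -/
def rr (z : Circle) : ℝ := (z : ℂ).re

/-- compact sets of characters are equicontinuous -/
def R1 (G : Type) [CommGroup G] [TopologicalSpace G] [IsTopologicalGroup G] : Prop :=
  ∀ L : Set (PontryaginDual G), IsCompact L → ∃ W ∈ 𝓝 (1 : G), ∀ χ ∈ L, ∀ g ∈ W, 0 ≤ rr (χ g)

/-- neighbourhoods of one contain polars of compact sets of characters -/
def R2 (G : Type) [CommGroup G] [TopologicalSpace G] [IsTopologicalGroup G] : Prop :=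
  ∀ W ∈ 𝓝 (1 : G), ∃ L : Set (PontryaginDual G), IsCompact L ∧
    ∀ g : G, (∀ χ ∈ L, 0 ≤ rr (χ g)) → g ∈ W

/-- characters of the dual are evaluations -/
def R3 (G : Type) [CommGroup G] [TopologicalSpace G] [IsTopologicalGroup G] : Prop :=
  ∀ Φ : PontryaginDual (PontryaginDual G), ∃ g : G, ∀ χ : PontryaginDual G, Φ χ = χ g

/-- polars of neighbourhoods in the dual are compact -/
def R4 (G : Type) [CommGroup G] [TopologicalSpace G] [IsTopologicalGroup G] : Prop :=
  ∀ N ∈ 𝓝 (1 : PontryaginDual G), IsCompact {x : G | ∀ ψ ∈ N, 0 ≤ rr (ψ x)}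

/-- A topological group `G` of families `I → X` (`c g` is the family of `g`) whose neighbourhoods of
one are given by the sets of all families with all members in a neighbourhood of one of `X`. -/
structure Fam (I X G : Type) [CommGroup X] [TopologicalSpace X] [CommGroup G]
    [TopologicalSpace G] where
  /-- the family -/
  c : G →* (I → X)
  inj : Function.Injective c
  nhd : ∀ W : Set G, W ∈ 𝓝 (1 : G) ↔ ∃ U ∈ 𝓝 (1 : X), ∀ g : G, (∀ i, c g i ∈ U) → g ∈ W

section
variable {I X G : Type} [CommGroup X] [TopologicalSpace X] [IsTopologicalGroup X] [CommGroup G]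
  [TopologicalSpace G] [IsTopologicalGroup G]

/-- the coordinate homomorphisms -/
def Fam.pr (F : Fam I X G) (i : I) : G →ₜ* X where
  toFun g := F.c g i
  map_one' := by rw [map_one]; rfl
  map_mul' a b := by rw [map_mul]; rfl
  continuous_toFun := by
    apply continuous_of_continuousAt_one
      ({ toFun := fun g => F.c g i, map_one' := by rw [map_one]; rfl,
         map_mul' := fun a b => by rw [map_mul]; rfl } : G →* X)
    intro U hU
    have hU' : U ∈ 𝓝 (1 : X) := by
      have : F.c 1 i = 1 := by rw [map_one]; rfl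
      simpa [this] using hU
    exact (F.nhd _).2 ⟨U, hU', fun g hg => hg i⟩

/-- the characters of `G` given by the characters of `X` and a coordinate -/
noncomputable def Fam.pb (F : Fam I X G) (i : I) : PontryaginDual X →ₜ* PontryaginDual G :=
  PontryaginDual.map (F.pr i)

theorem Fam.pb_apply (F : Fam I X G) (i : I) (ψ : PontryaginDual X) (g : G) :
    F.pb i ψ g = ψ (F.c g i) := rfl

/-- approximation of the identity on compact sets by finite products of homomorphisms which depend
on one coordinate -/
def AP (F : Fam I X G) : Prop :=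
  ∀ C : Set G, IsCompact C → ∀ W ∈ 𝓝 (1 : G), ∃ (J : Finset I) (E : I → (X →ₜ* G)),
    ∀ y ∈ C, (∏ j ∈ J, E j (F.c y j)) * y⁻¹ ∈ W

end

/-- the families are those which tend to one -/
def IsVan {I X G : Type} [CommGroup X] [TopologicalSpace X] [CommGroup G]
    [TopologicalSpace G] (F : Fam I X G) : Prop :=
  ∀ x : I → X, (∃ g, F.c g = x) ↔ Tendsto x cofinite (𝓝 1)

/-- the families are those with members in a compact set -/
def IsBdd {I X G : Type} [CommGroup X] [TopologicalSpace X] [CommGroup G]
    [TopologicalSpace G] (F : Fam I X G) : Prop :=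
  ∀ x : I → X, (∃ g, F.c g = x) ↔ ∃ K : Set X, IsCompact K ∧ ∀ i, x i ∈ K

/-- the double families in the circle group which tend to one uniformly in the first variable, and
along `𝓕` in the second variable -/
def Gam (I : Type) (𝓕 : Filter I) : Subgroup (ℕ → I → Circle) where
  carrier := {φ | (∀ V ∈ 𝓝 (1 : Circle), ∀ᶠ n in atTop, ∀ i, φ n i ∈ V) ∧
    ∀ n, Tendsto (φ n) 𝓕 (𝓝 1)}
  one_mem' := ⟨fun V hV => Eventually.of_forall fun n i => mem_of_mem_nhds hV,
    fun n => tendsto_const_nhds⟩
  mul_mem' := by
    rintro φ ψ ⟨h1, h2⟩ ⟨h3, h4⟩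
    refine ⟨fun V hV => ?_, fun n => by
      have h := (h2 n).mul (h4 n)
      rw [mul_one] at h
      exact h⟩
    obtain ⟨A, hA, hAV⟩ : ∃ A ∈ 𝓝 (1 : Circle), ∀ a ∈ A, ∀ b ∈ A, a * b ∈ V := by
      obtain ⟨A, hA, h⟩ := exists_nhds_one_split hV
      exact ⟨A, hA, h⟩
    filter_upwards [h1 A hA, h3 A hA] with n ha hb i
    exact hAV _ (ha i) _ (hb i)
  inv_mem' := by
    rintro φ ⟨h1, h2⟩
    refine ⟨fun V hV => ?_, fun n => by
      have h := (h2 n).inv
      rw [inv_one] at h
      exact h⟩
    have hV' : (fun z : Circle => z⁻¹) ⁻¹' V ∈ 𝓝 (1 : Circle) :=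
      continuous_inv.continuousAt.preimage_mem_nhds (by simpa using hV)
    filter_upwards [h1 _ hV'] with n ha i
    exact ha i

/-- the group of families tending to one, with the uniform topology -/
def c0 (I X : Type) [CommGroup X] [UniformSpace X] [IsUniformGroup X] : Subgroup (UniformFun I X) where
  carrier := {x | Tendsto (fun i => UniformFun.toFun x i) cofinite (𝓝 1)}
  one_mem' := tendsto_const_nhds
  mul_mem' := by
    intro a b ha hb
    have := Tendsto.mul ha hb
    simpa using this
  inv_mem' := by
    intro a ha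
    have := Tendsto.inv ha
    simpa using this

/-- the group of families whose set of members is precompact, with the uniform topology -/
def linf (I X : Type) [CommGroup X] [UniformSpace X] [IsUniformGroup X] :
    Subgroup (UniformFun I X) where
  carrier := {x | TotallyBounded (range (UniformFun.toFun x))}
  one_mem' := by
    apply (finite_singleton (1 : X)).totallyBounded.subset
    rintro _ ⟨i, rfl⟩
    rfl
  mul_mem' := by
    intro a b ha hb
    change TotallyBounded (range (UniformFun.toFun a)) at ha
    change TotallyBounded (range (UniformFun.toFun b)) at hb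
    change TotallyBounded (range (UniformFun.toFun (a * b)))
    rw [totallyBounded_iff_subset_finite_iUnion_nhds_one] at ha hb ⊢
    intro U hU
    obtain ⟨V, hV, hVU⟩ : ∃ V ∈ 𝓝 (1 : X), ∀ v ∈ V, ∀ w ∈ V, v * w ∈ U := by
      obtain ⟨V, hV, h⟩ := exists_nhds_one_split hU
      exact ⟨V, hV, h⟩
    obtain ⟨s, hs, hs'⟩ := ha V hV
    obtain ⟨t, ht, ht'⟩ := hb V hV
    refine ⟨image2 (fun y z => y * z) s t, hs.image2 _ ht, ?_⟩
    rintro _ ⟨i, rfl⟩
    obtain ⟨y, hy, v, hv, hyv⟩ := mem_iUnion₂.1 (hs' ⟨i, rfl⟩)
    obtain ⟨z, hz, w, hw, hzw⟩ := mem_iUnion₂.1 (ht' ⟨i, rfl⟩)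
    refine mem_iUnion₂.2 ⟨y * z, mem_image2_of_mem hy hz, v * w, hVU v hv w hw, ?_⟩
    change (y * z) * (v * w) = UniformFun.toFun a i * UniformFun.toFun b i
    rw [← hyv, ← hzw]
    change (y * z) * (v * w) = (y * v) * (z * w)
    rw [mul_mul_mul_comm]
  inv_mem' := by
    intro a ha
    apply (TotallyBounded.image ha uniformContinuous_id.inv).subset
    rintro _ ⟨i, rfl⟩
    exact ⟨UniformFun.toFun a i, ⟨i, rfl⟩, rfl⟩

end Pool.Agent.Q66.RX
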