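import Pool.Agent.Q66.RX.Asm
import Pool.Agent.Q66.RX.CRIT
import Pool.Agent.Q252.RX.POL
import Pool.Agent.Q208.RX.SEQ
import Pool.Agent.Q222.RX.LC
import Pool.Agent.Q94.RX.XR4
import Pool.Agent.Q79.RX.FR2
import Pool.Agent.Q182.RX.FEV
import Pool.Agent.Q234.RX.AP0
import Pool.Agent.Q71.RX.API
import Pool.Agent.Q103.RX.PT0
import Pool.Agent.Q160.RX.PTI
import Pool.Agent.Q113.RX.EXT
import Pool.Agent.Q154.RX.DIV
import Pool.Agent.Q278.RX.BMG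
import Pool.Agent.Q203.RX.EXTY
import Pool.Agent.Q154.RX.CONV
import Pool.Agent.Q247.RX.CH
import Pool.Agent.Q254.RX.R1F
import Pool.Agent.Q194.RX.TR0
import Pool.Agent.Q158.RX.TRI
import Pool.Agent.Q259.RX.OPA
import Pool.Agent.Q285.RX.OPE
import Pool.Agent.Q231.RX.OPD
import Pool.Agent.Q44.RX.Opb
import Pool.Agent.Q76.RX.FAM
import Pool.Agent.Q135.RX.BDD
import Pool.Agent.Q90.RX.PKA
import Pool.Agent.Q77.RX.PK1
import Pool.Agent.Q217.RX.PKH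
import Pool.Agent.Q149.RX.PKF
import Pool.Agent.Q164.RX.PKC
import Pool.Agent.Q203.RX.PKX
import Pool.Agent.Q139.RX.PKY
import Pool.Agent.Q39.RX.PKZ
import Pool.Agent.Q121.RX.CIR
import Pool.Agent.Q121.RX.EQ

/-!
Final assembly of project RX.
-/

set_option autoImplicit false

namespace Pool.Agent.Q66.RX

/-- the theorem of Pontryagin and van Kampen -/
theorem pvk (X : Type) [CommGroup X] [TopologicalSpace X] [IsTopologicalGroup X]
    [LocallyCompactSpace X] [T2Space X] : R1 X ∧ R2 X ∧ R3 X ∧ Reflexive X := by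
  have cir : S_CIR := Pool.Agent.Q121.RX.t_CIR
  have eq : S_EQ := Pool.Agent.Q121.RX.t_EQ
  have lc : S_LC := Pool.Agent.Q222.RX.t_LC
  have pk1 : S_PK1 := Pool.Agent.Q77.RX.t_PK1 Pool.Agent.Q90.RX.t_PKA
  have pkh : S_PKH := Pool.Agent.Q217.RX.t_PKH
  have pkc : S_PKC := Pool.Agent.Q164.RX.t_PKC lc eq
  have pkx : S_PKX := Pool.Agent.Q203.RX.t_PKX pkh pkc pk1
  have pky : S_PKY := Pool.Agent.Q139.RX.t_PKY pkh Pool.Agent.Q149.RX.t_PKF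
  have h1 : R1 X := r1_of_lc lc X
  have h2 : R2 X := pk1 X
  have h3 : R3 X := pk3 pkx pky Pool.Agent.Q39.RX.t_PKZ X
  exact ⟨h1, h2, h3, t_CRIT eq X h1 h2 h3⟩

theorem fin (I X : Type) [CommGroup X] [UniformSpace X] [IsUniformGroup X]
    [LocallyCompactSpace X] [T2Space X] :
    Reflexive (c0 I X) ∧ Reflexive (linf I X) ∧ Reflexive (UniformFun I X) := by
  have cir : S_CIR := Pool.Agent.Q121.RX.t_CIR
  have eq : S_EQ := Pool.Agent.Q121.RX.t_EQ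
  have lc : S_LC := Pool.Agent.Q222.RX.t_LC
  have pol : S_POL := Pool.Agent.Q252.RX.t_POL eq
  have ext : S_EXT := Pool.Agent.Q113.RX.t_EXT
  have bmg : S_BMG := Pool.Agent.Q278.RX.t_BMG cir
  have exty : S_EXTY := Pool.Agent.Q203.RX.t_EXTY bmg ext Pool.Agent.Q154.RX.t_DIV
  have r1f : S_R1F := Pool.Agent.Q254.RX.t_R1F exty (Pool.Agent.Q154.RX.t_CONV bmg)
    (Pool.Agent.Q247.RX.t_CH lc) Pool.Agent.Q208.RX.t_SEQ cir
  have opb : S_OPB := Pool.Agent.Q44.RX.t_OPB (Pool.Agent.Q285.RX.t_OPE ext)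
    (Pool.Agent.Q231.RX.t_OPD pol cir)
  obtain ⟨h1, h2, h3, -⟩ := pvk X
  exact main (t_CRIT eq) (Pool.Agent.Q94.RX.t_XR4 pol) (Pool.Agent.Q79.RX.t_FR2 lc pol)
    Pool.Agent.Q182.RX.t_FEV Pool.Agent.Q234.RX.t_AP0 Pool.Agent.Q71.RX.t_API
    (Pool.Agent.Q103.RX.t_PT0 lc) (Pool.Agent.Q160.RX.t_PTI lc) r1f
    (Pool.Agent.Q194.RX.t_TR0 eq) Pool.Agent.Q158.RX.t_TRI Pool.Agent.Q259.RX.t_OPA opb
    Pool.Agent.Q76.RX.t_FAM Pool.Agent.Q135.RX.t_BDD I X h1 h2 h3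

end Pool.Agent.Q66.RX
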